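import Pool.Agent.KS6_17.TM.Sum
import Pool.Agent.KS6_17.TM.Sigma

/-!
# MP_a4feb0_gt: totally minimal solvable groups which are Frechet-Urysohn and not metrizable

Q1 asks whether every totally minimal solvable group of countable tightness is metrizable. The two
groups below are totally minimal, solvable of derived length at most three, Frechet-Urysohn (so of
countable tightness) and not metrizable. The first is sigma-compact. The second has an open
subgroup in which every countable set has compact closure.
-/

set_option autoImplicit false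

open Topology Set

namespace Pool.Agent.Results.MP_a4feb0_gt.FrechetUrysohnExamples

/-- `G` is minimal: there is no strictly coarser Hausdorff group topology. -/
def Minimal (G : Type) [Group G] [τ : TopologicalSpace G] : Prop :=
  ∀ σ : TopologicalSpace G, @IsTopologicalGroup G σ _ → @T2Space G σ → τ ≤ σ → σ = τ

/-- `G` is totally minimal: every quotient by a closed normal subgroup is minimal. -/
def TotallyMinimal (G : Type) [Group G] [TopologicalSpace G] : Prop :=
  ∀ (N : Subgroup G) [N.Normal], IsClosed (N : Set G) → Minimal (G ⧸ N)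

/-- `G` has an open subgroup all of whose countable subsets have compact closure. -/
def LocallyOmegaBounded (G : Type) [Group G] [TopologicalSpace G] : Prop :=
  ∃ U : Subgroup G, IsOpen (U : Set G) ∧
    ∀ S : Set G, S ⊆ (U : Set G) → S.Countable → IsCompact (closure S)

/-- Two totally minimal solvable Frechet-Urysohn groups which are not metrizable: a sigma-compact
one, and one which is locally `ω`-bounded. -/
theorem result :
    (∃ (G : Type) (_ : Group G) (_ : TopologicalSpace G), IsTopologicalGroup G ∧ T2Space G ∧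
      TotallyMinimal G ∧ derivedSeries G 3 = ⊥ ∧ FrechetUrysohnSpace G ∧ SigmaCompactSpace G ∧
      ¬ TopologicalSpace.MetrizableSpace G) ∧
    (∃ (G : Type) (_ : Group G) (_ : TopologicalSpace G), IsTopologicalGroup G ∧ T2Space G ∧
      TotallyMinimal G ∧ derivedSeries G 3 = ⊥ ∧ FrechetUrysohnSpace G ∧ LocallyOmegaBounded G ∧
      ¬ TopologicalSpace.MetrizableSpace G) := by
  constructor
  · obtain ⟨τ, t1, t2⟩ := Pool.Agent.H.MP_a4feb0_gt.B.top
    exact ⟨Pool.Agent.H.MP_a4feb0_gt.B.G, inferInstance, τ, t1, KS6_17.TM.Sum.t2sp τ t1 t2,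
      fun N _ _ σ h1 h2 h3 => KS6_17.TM.Sum.totmin τ t1 t2 N σ h1 h2 h3, KS6_17.TM.Sum.solv,
      KS6_17.TM.Sum.fu τ t1 t2, KS6_17.TM.Sum.sigma τ t1 t2, KS6_17.TM.Sum.nonmet τ t1 t2⟩
  · exact ⟨Pool.Agent.Y444.TM.G, inferInstance, inferInstance, inferInstance, inferInstance,
      fun N _ _ σ h1 h2 h3 => Pool.Agent.Y444.TM.G.minimal_quotient N σ h3 h1 h2,
      Pool.Agent.Y444.TM.G.solvable, KS6_17.TM.Sigma.fu,
      ⟨KS6_17.TM.Sigma.U, KS6_17.TM.Sigma.isOpen_U, KS6_17.TM.Sigma.omegaBdd⟩,
      Pool.Agent.Y444.TM.G.not_metrizable⟩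

end Pool.Agent.Results.MP_a4feb0_gt.FrechetUrysohnExamples
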